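import Mathlib
import Pool.Agent.Lib_helper97.OSDefs
import Pool.Agent.Lib_helper97.OSSpaces
import Pool.Agent.Lib_helper97.OSFinal

/-!
# `R_n ⊕ C_m` satisfies `d_SK(E) = d_SK(E*) = 1`

The definitions used in the statement are in `Pool.Agent.Lib_helper97.OSDefs` and
`Pool.Agent.Lib_helper97.OSSpaces`; the proof is in the other `OS` files of `Lib_helper97`.

Idea of the proof. The dual of `R_n ⊕ C_m` is the `ℓ_1`-sum of `C_n` and `R_m`. Its first `n` basis
vectors are sent to creation operators and its last `m` ones to transposes of creation operators, on
the full Fock space over `n + m` letters cut off at level `N + 1`. This map into scalar matrices is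
completely contractive; a dilation of a row contraction and of a column contraction, and a
compression which alternates between the two, show that it has distortion at most
`(N + 2) / (N + 1)`. If `n, m ≥ 2`, no hyperplane of `R_n ⊕ C_m` is a Hilbert space, while every
listed space of dimension at least `3` has a Hilbertian hyperplane.
-/

namespace Pool.Agent.Results.MP_5c6a50_an.RowPlusColumn

open Pool.Agent.Lib_helper97.OS

/-- **For `n, m ≥ 2` the operator space `E = R_n ⊕ C_m` satisfies `d_SK(E) = d_SK(E*) = 1`, and it
is not in the list of the question.** -/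
theorem result (n m : ℕ) (hn : 2 ≤ n) (hm : 2 ≤ m) :
    1 < Module.finrank ℂ ((Fin n → ℂ) × (Fin m → ℂ)) ∧
      dSK (sumInf (row n) (col m)) = 1 ∧
      dSK (dual (sumInf (row n) (col m))) = 1 ∧
      ¬ InList (sumInf (row n) (col m)) :=
  ⟨by rw [finrank_RC]; omega, dSK_eq (by omega), dSK_dual_eq (by omega) (by omega),
    not_inList hn hm⟩

end Pool.Agent.Results.MP_5c6a50_an.RowPlusColumn
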